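import Mathlib

set_option autoImplicit false

namespace Pool.Agent.Results.MP_c705d2_co.AllValues

open SimpleGraph

/-- `D` is a dominating set: every vertex lies in `D` or is adjacent to a vertex of `D`. -/
def Dominating {V : Type} (G : SimpleGraph V) (D : Finset V) : Prop :=
  ∀ v : V, v ∈ D ∨ ∃ u ∈ D, G.Adj u v

/-- One round of the game: the occupied set is `D`, the vertex `r` is attacked, and the new
occupied set is `D'`. If `r` is occupied then nothing moves; otherwise exactly one guard moves from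
a neighbour `u` of `r` to `r`. -/
def Round {V : Type} [DecidableEq V] (G : SimpleGraph V) (D : Finset V) (r : V)
    (D' : Finset V) : Prop :=
  (r ∈ D ∧ D' = D) ∨ (r ∉ D ∧ ∃ u ∈ D, G.Adj u r ∧ D' = insert r (D.erase u))

/-- `k` guards on distinct vertices can defend `G` forever: there is a strategy `σ` giving for
every finite list `h` of attacks (the latest one first) the occupied set `σ h` after these attacks,
starting with `k` occupied vertices, such that every `σ h` is dominating and every attack is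
answered by a legal round. -/
def Defends {V : Type} [DecidableEq V] (G : SimpleGraph V) (k : ℕ) : Prop :=
  ∃ σ : List V → Finset V, (σ []).card = k ∧ (∀ h, Dominating G (σ h)) ∧
    ∀ h r, Round G (σ h) r (σ (r :: h))

/-- The domination number of `G` is `k`. -/
def DomNumberEq {V : Type} (G : SimpleGraph V) (k : ℕ) : Prop :=
  IsLeast {m : ℕ | ∃ D : Finset V, Dominating G D ∧ D.card = m} k

/-- The eternal domination number of `G` is `k`. -/
def EternalNumberEq {V : Type} [DecidableEq V] (G : SimpleGraph V) (k : ℕ) : Prop :=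
  IsLeast {m : ℕ | Defends G m} k

/-- The clique covering number of `G` is `t`: the least number of cliques with union `V`. -/
def CoverNumberEq {V : Type} (G : SimpleGraph V) (t : ℕ) : Prop :=
  IsLeast {m : ℕ | ∃ C : Fin m → Set V, (∀ i, G.IsClique (C i)) ∧ ∀ v, ∃ i, v ∈ C i} t

/-! ### Closed families of configurations -/

/-- A nonempty family of dominating `k`-sets that is closed under some answer to each attack. -/
def Good {V : Type} [DecidableEq V] (G : SimpleGraph V) (k : ℕ) (F : Set (Finset V)) : Prop :=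
  F.Nonempty ∧ ∀ D ∈ F, D.card = k ∧ Dominating G D ∧ ∀ r, ∃ D' ∈ F, Round G D r D'

theorem round_card {V : Type} [DecidableEq V] {G : SimpleGraph V} {D D' : Finset V} {r : V}
    (h : Round G D r D') : D'.card = D.card := by
  rcases h with ⟨_, rfl⟩ | ⟨hr, u, hu, _, rfl⟩
  · rfl
  · rw [Finset.card_insert_of_notMem (fun h => hr (Finset.mem_of_mem_erase h)),
      Finset.card_erase_of_mem hu]
    have : 0 < D.card := Finset.card_pos.mpr ⟨u, hu⟩
    omega

theorem defends_of_good {V : Type} [DecidableEq V] {G : SimpleGraph V} {k : ℕ}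
    {F : Set (Finset V)} (h : Good G k F) : Defends G k := by
  classical
  obtain ⟨⟨D₀, hD₀⟩, hF⟩ := h
  have hnext : ∀ (D : {D // D ∈ F}) (r : V), ∃ D' : {D // D ∈ F}, Round G D.1 r D'.1 := by
    intro D r
    obtain ⟨D', hD', hr⟩ := (hF D.1 D.2).2.2 r
    exact ⟨⟨D', hD'⟩, hr⟩
  choose nx hnx using hnext
  let σ : List V → {D // D ∈ F} := fun h => List.recOn h ⟨D₀, hD₀⟩ (fun r _ D => nx D r)
  refine ⟨fun h => (σ h).1, (hF D₀ hD₀).1, fun h => (hF _ (σ h).2).2.1, fun h r => ?_⟩
  exact hnx (σ h) r

/-- The properties used in the constructions: every dominating set has at least `k` vertices,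
`k` guards can defend, and every partition into cliques has at least `t` parts. -/
def Has (k t : ℕ) : Prop :=
  ∃ (W : Type) (_ : Fintype W) (_ : DecidableEq W) (B : SimpleGraph W), Nonempty W ∧
    (∀ D : Finset W, Dominating B D → k ≤ D.card) ∧ (∃ F, Good B k F) ∧
    (∀ c : W → ℕ, (∀ x y, x ≠ y → c x = c y → B.Adj x y) → t ≤ (Finset.univ.image c).card)

theorem has_one : Has 1 1 := by
  refine ⟨Unit, inferInstance, inferInstance, ⊥, ⟨()⟩, ?_, ?_, ?_⟩
  · intro D hD
    rcases hD () with h | ⟨u, hu, _⟩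
    · exact Finset.card_pos.mpr ⟨_, h⟩
    · exact Finset.card_pos.mpr ⟨_, hu⟩
  · refine ⟨{Finset.univ}, ⟨_, rfl⟩, ?_⟩
    rintro D rfl
    refine ⟨rfl, fun v => Or.inl (Finset.mem_univ v), fun r => ⟨_, rfl, Or.inl ⟨?_, rfl⟩⟩⟩
    exact Finset.mem_univ r
  · intro c _
    exact Finset.card_pos.mpr ⟨c (), Finset.mem_image_of_mem _ (Finset.mem_univ _)⟩

theorem has_add {k₁ t₁ k₂ t₂ : ℕ} (h₁ : Has k₁ t₁) (h₂ : Has k₂ t₂) :
    Has (k₁ + k₂) (t₁ + t₂) := by
  classical
  obtain ⟨W₁, _, _, B₁, ⟨w₁⟩, a₁, ⟨F₁, b₁⟩, c₁⟩ := h₁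
  obtain ⟨W₂, _, _, B₂, ⟨w₂⟩, a₂, ⟨F₂, b₂⟩, c₂⟩ := h₂
  refine ⟨W₁ ⊕ W₂, inferInstance, inferInstance, B₁ ⊕g B₂, ⟨Sum.inl w₁⟩, ?_, ?_, ?_⟩
  · intro D hD
    have e1 : Dominating B₁ D.toLeft := by
      intro v
      rcases hD (Sum.inl v) with h | ⟨u, hu, huv⟩
      · exact Or.inl (Finset.mem_toLeft.mpr h)
      · right
        rcases u with u | u
        · exact ⟨u, Finset.mem_toLeft.mpr hu, by simpa using huv⟩
        · simp at huv
    have e2 : Dominating B₂ D.toRight := by
      intro v
      rcases hD (Sum.inr v) with h | ⟨u, hu, huv⟩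
      · exact Or.inl (Finset.mem_toRight.mpr h)
      · right
        rcases u with u | u
        · simp at huv
        · exact ⟨u, Finset.mem_toRight.mpr hu, by simpa using huv⟩
    have := a₁ _ e1
    have := a₂ _ e2
    have e3 := Finset.card_toLeft_add_card_toRight (u := D)
    omega
  · refine ⟨{D | ∃ D₁ ∈ F₁, ∃ D₂ ∈ F₂, D = D₁.disjSum D₂}, ?_, ?_⟩
    · obtain ⟨D₁, hD₁⟩ := b₁.1
      obtain ⟨D₂, hD₂⟩ := b₂.1
      exact ⟨_, D₁, hD₁, D₂, hD₂, rfl⟩
    · rintro D ⟨D₁, hD₁, D₂, hD₂, rfl⟩
      obtain ⟨p1, p2, p3⟩ := b₁.2 D₁ hD₁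
      obtain ⟨q1, q2, q3⟩ := b₂.2 D₂ hD₂
      refine ⟨by rw [Finset.card_disjSum, p1, q1], ?_, ?_⟩
      · rintro (v | v)
        · rcases p2 v with h | ⟨u, hu, huv⟩
          · exact Or.inl (by simpa using h)
          · exact Or.inr ⟨Sum.inl u, by simpa using hu, by simpa using huv⟩
        · rcases q2 v with h | ⟨u, hu, huv⟩
          · exact Or.inl (by simpa using h)
          · exact Or.inr ⟨Sum.inr u, by simpa using hu, by simpa using huv⟩
      · rintro (r | r)
        · obtain ⟨D', hD', hR⟩ := p3 r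
          refine ⟨D'.disjSum D₂, ⟨D', hD', D₂, hD₂, rfl⟩, ?_⟩
          rcases hR with ⟨h1, rfl⟩ | ⟨h1, u, hu, huv, rfl⟩
          · exact Or.inl ⟨by simpa using h1, rfl⟩
          · refine Or.inr ⟨by simpa using h1, Sum.inl u, by simpa using hu,
              by simpa using huv, ?_⟩
            ext x
            rcases x with x | x <;> simp
        · obtain ⟨D', hD', hR⟩ := q3 r
          refine ⟨D₁.disjSum D', ⟨D₁, hD₁, D', hD', rfl⟩, ?_⟩
          rcases hR with ⟨h1, rfl⟩ | ⟨h1, u, hu, huv, rfl⟩
          · exact Or.inl ⟨by simpa using h1, rfl⟩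
          · refine Or.inr ⟨by simpa using h1, Sum.inr u, by simpa using hu,
              by simpa using huv, ?_⟩
            ext x
            rcases x with x | x <;> simp
  · intro c hc
    have e1 := c₁ (fun x => c (Sum.inl x)) (fun x y hxy h => by
      simpa using hc (Sum.inl x) (Sum.inl y) (by simpa using hxy) h)
    have e2 := c₂ (fun x => c (Sum.inr x)) (fun x y hxy h => by
      simpa using hc (Sum.inr x) (Sum.inr y) (by simpa using hxy) h)
    have hdis : Disjoint (Finset.univ.image fun x => c (Sum.inl x))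
        (Finset.univ.image fun x => c (Sum.inr x)) := by
      rw [Finset.disjoint_left]
      intro i hi hj
      simp only [Finset.mem_image, Finset.mem_univ, true_and] at hi hj
      obtain ⟨x, hx⟩ := hi
      obtain ⟨y, hy⟩ := hj
      have := hc (Sum.inl x) (Sum.inr y) (by simp) (hx.trans hy.symm)
      simp at this
    have hsub : (Finset.univ.image fun x => c (Sum.inl x)) ∪
        (Finset.univ.image fun x => c (Sum.inr x)) ⊆ Finset.univ.image c := by
      intro i hi
      simp only [Finset.mem_union, Finset.mem_image, Finset.mem_univ, true_and] at hi ⊢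
      rcases hi with ⟨x, hx⟩ | ⟨x, hx⟩
      · exact ⟨_, hx⟩
      · exact ⟨_, hx⟩
    have := Finset.card_le_card hsub
    rw [Finset.card_union_of_disjoint hdis] at this
    omega

/-! ### Adding twins: connected examples of any size -/

/-- Every vertex of `B` is replaced by `M + 2` mutually adjacent copies, and the copies number `0`
of all vertices are made adjacent. -/
def blow {W : Type} (B : SimpleGraph W) (M : ℕ) : SimpleGraph (W × Fin (M + 2)) where
  Adj p q := p ≠ q ∧ (p.1 = q.1 ∨ B.Adj p.1 q.1 ∨ (p.2 = 0 ∧ q.2 = 0))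
  symm := ⟨by
    rintro p q ⟨h1, h2⟩
    refine ⟨h1.symm, ?_⟩
    rcases h2 with h | h | ⟨h, h'⟩
    · exact Or.inl h.symm
    · exact Or.inr (Or.inl h.symm)
    · exact Or.inr (Or.inr ⟨h', h⟩)⟩
  loopless := ⟨fun p h => h.1 rfl⟩

theorem blow_adj {W : Type} (B : SimpleGraph W) (M : ℕ) (p q : W × Fin (M + 2)) :
    (blow B M).Adj p q ↔ p ≠ q ∧ (p.1 = q.1 ∨ B.Adj p.1 q.1 ∨ (p.2 = 0 ∧ q.2 = 0)) := Iff.rfl

theorem blow_connected {W : Type} [Nonempty W] (B : SimpleGraph W) (M : ℕ) :
    (blow B M).Connected := by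
  obtain ⟨w₀⟩ := ‹Nonempty W›
  have h1 : ∀ p : W × Fin (M + 2), (blow B M).Reachable p (w₀, 0) := by
    intro p
    have e1 : (blow B M).Reachable p (p.1, 0) := by
      by_cases h : p = (p.1, 0)
      · rw [← h]
      · exact Adj.reachable ⟨h, Or.inl rfl⟩
    have e2 : (blow B M).Reachable (p.1, 0) (w₀, 0) := by
      by_cases h : (p.1, (0 : Fin (M + 2))) = (w₀, 0)
      · rw [← h]
      · exact Adj.reachable ⟨h, Or.inr (Or.inr ⟨rfl, rfl⟩)⟩
    exact e1.trans e2
  have : Nonempty (W × Fin (M + 2)) := ⟨(w₀, 0)⟩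
  exact ⟨fun p q => (h1 p).trans (h1 q).symm⟩

theorem one_ne_zero' (M : ℕ) : (1 : Fin (M + 2)) ≠ 0 := by
  intro h
  have := congrArg Fin.val h
  simp at this

theorem blow_dominating {W : Type} [DecidableEq W] (B : SimpleGraph W) (M : ℕ)
    (D : Finset (W × Fin (M + 2))) (hD : Dominating (blow B M) D) :
    Dominating B (D.image Prod.fst) := by
  intro w
  rcases hD (w, 1) with h | ⟨u, hu, _, h | h | ⟨_, h⟩⟩
  · exact Or.inl (Finset.mem_image.mpr ⟨_, h, rfl⟩)
  · exact Or.inl (Finset.mem_image.mpr ⟨_, hu, h⟩)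
  · exact Or.inr ⟨u.1, Finset.mem_image.mpr ⟨_, hu, rfl⟩, h⟩
  · exact absurd h (one_ne_zero' M)

theorem blow_good {W : Type} [DecidableEq W] (B : SimpleGraph W) (M k : ℕ)
    (F : Set (Finset W)) (hF : Good B k F) :
    Good (blow B M) k {D | D.image Prod.fst ∈ F ∧ D.card = k} := by
  classical
  constructor
  · obtain ⟨D, hD⟩ := hF.1
    refine ⟨D.image (fun w => (w, (0 : Fin (M + 2)))), ?_, ?_⟩
    · rw [Finset.image_image]
      have : (Prod.fst ∘ fun w : W => (w, (0 : Fin (M + 2)))) = id := rfl
      rw [this, Finset.image_id]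
      exact hD
    · rw [Finset.card_image_of_injective _ (fun a b h => congrArg Prod.fst h)]
      exact (hF.2 D hD).1
  · rintro D ⟨hD, hcard⟩
    obtain ⟨h1, h2, h3⟩ := hF.2 _ hD
    have hinj : Set.InjOn Prod.fst (D : Set (W × Fin (M + 2))) :=
      Finset.card_image_iff.mp (h1.trans hcard.symm)
    refine ⟨hcard, ?_, ?_⟩
    · rintro ⟨w, c⟩
      rcases h2 w with h | ⟨u, hu, huw⟩
      · obtain ⟨p, hp, rfl⟩ := Finset.mem_image.mp h
        by_cases hpc : p = (p.1, c)
        · exact Or.inl (hpc ▸ hp)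
        · exact Or.inr ⟨p, hp, hpc, Or.inl rfl⟩
      · obtain ⟨p, hp, rfl⟩ := Finset.mem_image.mp hu
        refine Or.inr ⟨p, hp, ?_, Or.inr (Or.inl huw)⟩
        rintro rfl
        exact B.loopless.irrefl _ huw
    · rintro ⟨w, c⟩
      by_cases hr : (w, c) ∈ D
      · exact ⟨D, ⟨hD, hcard⟩, Or.inl ⟨hr, rfl⟩⟩
      have hmain : ∀ u ∈ D, (blow B M).Adj u (w, c) →
          (insert (w, c) (D.erase u)).image Prod.fst ∈ F →
          ∃ D' ∈ {D : Finset (W × Fin (M + 2)) | D.image Prod.fst ∈ F ∧ D.card = k},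
            Round (blow B M) D (w, c) D' := by
        intro u hu hadj himg
        have hR : Round (blow B M) D (w, c) (insert (w, c) (D.erase u)) :=
          Or.inr ⟨hr, u, hu, hadj, rfl⟩
        exact ⟨_, ⟨himg, (round_card hR).trans hcard⟩, hR⟩
      by_cases hw : w ∈ D.image Prod.fst
      · obtain ⟨u, hu, hu1⟩ := Finset.mem_image.mp hw
        apply hmain u hu
        · refine ⟨?_, Or.inl hu1⟩
          rintro rfl
          exact hr hu
        · have : (insert (w, c) (D.erase u)).image Prod.fst = D.image Prod.fst := by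
            ext x
            simp only [Finset.mem_image, Finset.mem_insert, Finset.mem_erase]
            constructor
            · rintro ⟨p, rfl | ⟨_, hp⟩, rfl⟩
              · exact ⟨u, hu, hu1⟩
              · exact ⟨p, hp, rfl⟩
            · rintro ⟨p, hp, rfl⟩
              by_cases hpu : p = u
              · refine ⟨(w, c), Or.inl rfl, ?_⟩
                rw [hpu, hu1]
              · exact ⟨p, Or.inr ⟨hpu, hp⟩, rfl⟩
          rw [this]
          exact hD
      · obtain ⟨D', hD', hR⟩ := h3 w
        rcases hR with ⟨h, _⟩ | ⟨_, v, hv, hvw, rfl⟩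
        · exact absurd h hw
        obtain ⟨u, hu, rfl⟩ := Finset.mem_image.mp hv
        apply hmain u hu
        · refine ⟨?_, Or.inr (Or.inl hvw)⟩
          rintro rfl
          exact hr hu
        · have : (insert (w, c) (D.erase u)).image Prod.fst =
              insert w ((D.image Prod.fst).erase u.1) := by
            ext x
            simp only [Finset.mem_image, Finset.mem_insert, Finset.mem_erase]
            constructor
            · rintro ⟨p, rfl | ⟨hpu, hp⟩, rfl⟩
              · exact Or.inl rfl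
              · exact Or.inr ⟨fun h => hpu (hinj hp hu h), ⟨p, hp, rfl⟩⟩
            · rintro (rfl | ⟨hne, ⟨p, hp, rfl⟩⟩)
              · exact ⟨(x, c), Or.inl rfl, rfl⟩
              · exact ⟨p, Or.inr ⟨fun h => hne (by rw [h]), hp⟩, rfl⟩
          rw [this]
          exact hD'

theorem blow_cover {W : Type} [Fintype W] (B : SimpleGraph W) (M t : ℕ)
    (hB : ∀ c : W → ℕ, (∀ x y, x ≠ y → c x = c y → B.Adj x y) →
      t ≤ (Finset.univ.image c).card) (m : ℕ)
    (C : Fin m → Set (W × Fin (M + 2))) (hC : ∀ i, (blow B M).IsClique (C i))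
    (hcov : ∀ v, ∃ i, v ∈ C i) : t ≤ m := by
  classical
  choose f hf using hcov
  have h1 := hB (fun w => (f (w, 1)).val) (by
    intro x y hxy h
    have h2 : f (x, 1) = f (y, 1) := Fin.ext h
    have h3 : (y, (1 : Fin (M + 2))) ∈ C (f (x, 1)) := by
      rw [h2]; exact hf _
    have h4 := hC _ (hf (x, 1)) h3 (fun h => hxy (congrArg Prod.fst h))
    rcases h4.2 with h5 | h5 | ⟨h5, _⟩
    · exact absurd h5 hxy
    · exact h5
    · exact absurd h5 (one_ne_zero' M))
  have h2 : (Finset.univ.image fun w => (f (w, (1 : Fin (M + 2)))).val).card ≤ m := by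
    have : (Finset.univ.image fun w => (f (w, (1 : Fin (M + 2)))).val) ⊆ Finset.range m := by
      intro i hi
      obtain ⟨w, _, rfl⟩ := Finset.mem_image.mp hi
      exact Finset.mem_range.mpr (f (w, 1)).isLt
    simpa using Finset.card_le_card this
  omega

theorem exists_cover {V : Type} [Fintype V] (G : SimpleGraph V) :
    ∃ t, CoverNumberEq G t := by
  classical
  have hne : ∃ m : ℕ, ∃ C : Fin m → Set V, (∀ i, G.IsClique (C i)) ∧ ∀ v, ∃ i, v ∈ C i := by
    refine ⟨Fintype.card V, fun i => {(Fintype.equivFin V).symm i}, fun i => ?_, fun v => ?_⟩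
    · exact Set.pairwise_singleton _ _
    · exact ⟨Fintype.equivFin V v, by simp⟩
  exact ⟨Nat.find hne, Nat.find_spec hne, fun m hm => Nat.find_min' hne hm⟩

theorem has_connected {k t : ℕ} (h : Has k t) (N : ℕ) :
    ∃ (V : Type) (_ : Fintype V) (_ : DecidableEq V) (G : SimpleGraph V) (s : ℕ),
      G.Connected ∧ N ≤ Fintype.card V ∧ DomNumberEq G k ∧ EternalNumberEq G k ∧
      CoverNumberEq G s ∧ t ≤ s := by
  obtain ⟨W, _, _, B, hW, a, ⟨F, b⟩, c⟩ := h
  obtain ⟨s, hs⟩ := exists_cover (blow B N)
  have hgood := blow_good B N k F b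
  have hlow : ∀ D : Finset (W × Fin (N + 2)), Dominating (blow B N) D → k ≤ D.card := by
    intro D hD
    exact (a _ (blow_dominating B N D hD)).trans Finset.card_image_le
  refine ⟨W × Fin (N + 2), inferInstance, inferInstance, blow B N, s, blow_connected B N, ?_,
    ⟨?_, ?_⟩, ⟨defends_of_good hgood, ?_⟩, hs, ?_⟩
  · rw [Fintype.card_prod, Fintype.card_fin]
    have : 0 < Fintype.card W := Fintype.card_pos
    nlinarith
  · obtain ⟨D, hD⟩ := hgood.1
    exact ⟨D, (hgood.2 D hD).2.1, (hgood.2 D hD).1⟩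
  · rintro m ⟨D, hD, rfl⟩
    exact hlow D hD
  · rintro m ⟨σ, h0, h1, _⟩
    rw [← h0]
    exact hlow _ (h1 [])
  · obtain ⟨C, hC, hcov⟩ := hs.1
    exact blow_cover B N t c s C hC hcov

/-! ### The example with three guards -/

/-- The core combinatorial step, for a Cayley graph in which adjacent vertices have a unique common
neighbour and nonadjacent ones exactly two.  The three guards stand at `a`, `b`, `c` and the attack
is at `0`; two vertices are joined in the complement `H` when their difference satisfies `S`. -/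
theorem key {V : Type} [AddCommGroup V] (S : V → Prop)
    (hneg : ∀ a, S a → S (-a))
    (hdbl : ∀ a, S a → S (-a - a))
    (hlam : ∀ a p, S a → S p → S (p - a) → p = -a)
    (hmu : ∀ a p q, S p → S q → S (p - a) → S (q - a) → a ≠ 0 → ¬ S a → p = q ∨ a = p + q)
    (a b c : V) (ha0 : a ≠ 0) (hb0 : b ≠ 0) (hc0 : c ≠ 0) (hab : a ≠ b) (hac : a ≠ c) (hbc : b ≠ c)
    (hF : ∀ w, ¬ (S (w - a) ∧ S (w - b) ∧ S (w - c))) :
    (¬ S a ∧ ∀ w, ¬ (S w ∧ S (w - b) ∧ S (w - c))) ∨
    (¬ S b ∧ ∀ w, ¬ (S w ∧ S (w - a) ∧ S (w - c))) ∨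
    (¬ S c ∧ ∀ w, ¬ (S w ∧ S (w - a) ∧ S (w - b))) := by
  by_contra hcon
  push Not at hcon
  obtain ⟨h1, h2, h3⟩ := hcon
  by_cases ha : S a <;> by_cases hb : S b <;> by_cases hc : S c
  · exact hF 0 ⟨by simpa using hneg a ha, by simpa using hneg b hb, by simpa using hneg c hc⟩
  · obtain ⟨r, hr, hra, hrb⟩ := h3 hc
    have e1 := hlam a r ha hr hra
    have e2 := hlam b r hb hr hrb
    exact hab (neg_injective (e1.symm.trans e2))
  · obtain ⟨r, hr, hra, hrb⟩ := h2 hb
    have e1 := hlam a r ha hr hra
    have e2 := hlam c r hc hr hrb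
    exact hac (neg_injective (e1.symm.trans e2))
  · obtain ⟨q, hq, hqa, hqc⟩ := h2 hb
    obtain ⟨r, hr, hra, hrb⟩ := h3 hc
    have e1 := hlam a q ha hq hqa
    have e2 := hlam a r ha hr hra
    subst e1
    subst e2
    exact hF (-a) ⟨hdbl a ha, hrb, hqc⟩
  · obtain ⟨r, hr, hra, hrb⟩ := h1 ha
    have e1 := hlam b r hb hr hra
    have e2 := hlam c r hc hr hrb
    exact hbc (neg_injective (e1.symm.trans e2))
  · obtain ⟨q, hq, hqa, hqc⟩ := h1 ha
    obtain ⟨r, hr, hra, hrb⟩ := h3 hc
    have e1 := hlam b q hb hq hqa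
    have e2 := hlam b r hb hr hrb
    subst e1
    subst e2
    exact hF (-b) ⟨hra, hdbl b hb, hqc⟩
  · obtain ⟨q, hq, hqa, hqc⟩ := h1 ha
    obtain ⟨r, hr, hra, hrb⟩ := h2 hb
    have e1 := hlam c q hc hq hqc
    have e2 := hlam c r hc hr hrb
    subst e1
    subst e2
    exact hF (-c) ⟨hra, hqa, hdbl c hc⟩
  · obtain ⟨r, hr, hrb, hrc⟩ := h1 ha
    obtain ⟨q, hq, hqa, hqc⟩ := h2 hb
    obtain ⟨p, hp, hpa, hpb⟩ := h3 hc
    rcases hmu a p q hp hq hpa hqa ha0 ha with h | h
    · subst h
      exact hF p ⟨hpa, hpb, hqc⟩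
    rcases hmu b p r hp hr hpb hrb hb0 hb with h' | h'
    · subst h'
      exact hF p ⟨hpa, hpb, hrc⟩
    rcases hmu c q r hq hr hqc hrc hc0 hc with h'' | h''
    · subst h''
      exact hF q ⟨hqa, hrb, hqc⟩
    refine hF (p + q + r) ⟨?_, ?_, ?_⟩
    · rw [h]
      have : p + q + r - (p + q) = r := by abel
      rw [this]; exact hr
    · rw [h']
      have : p + q + r - (p + r) = q := by abel
      rw [this]; exact hq
    · rw [h'']
      have : p + q + r - (q + r) = p := by abel
      rw [this]; exact hp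

/-- The vector space of dimension five over the field with three elements. -/
abbrev V5 : Type := ZMod 3 × ZMod 3 × ZMod 3 × ZMod 3 × ZMod 3

/-- The connection set: plus and minus the eleven columns of a parity check matrix of the
perfect ternary Golay code. -/
def L : List V5 :=
  [(1, 0, 0, 0, 0), (0, 1, 0, 0, 0), (0, 0, 1, 0, 0), (0, 0, 0, 1, 0), (0, 0, 0, 0, 1),
   (1, 0, 2, 1, 2), (2, 1, 1, 1, 2), (2, 2, 2, 0, 2), (2, 2, 0, 1, 1), (1, 2, 1, 1, 0),
   (0, 1, 2, 1, 1),
   (2, 0, 0, 0, 0), (0, 2, 0, 0, 0), (0, 0, 2, 0, 0), (0, 0, 0, 2, 0), (0, 0, 0, 0, 2),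
   (2, 0, 1, 2, 1), (1, 2, 2, 2, 1), (1, 1, 1, 0, 1), (1, 1, 0, 2, 2), (2, 1, 2, 2, 0),
   (0, 2, 1, 2, 2)]

theorem L_neg : ∀ s ∈ L, -s ∈ L := by decide +kernel

theorem L_dbl : ∀ s ∈ L, -s - s ∈ L := by decide +kernel

theorem L_zero : (0 : V5) ∉ L := by decide +kernel

theorem L_common : ∀ v : V5, ∃ s ∈ L, s - v ∈ L := by decide +kernel

theorem L_lam : ∀ a ∈ L, ∀ p ∈ L, p - a ∈ L → p = -a := by decide +kernel

theorem L_line : ∀ w ∈ L, w - (1, 0, 0, 0, 0) ∉ L ∨ w - (2, 0, 0, 0, 0) ∉ L := by
  decide +kernel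

/-- Boolean form of the statement that nonadjacent vertices have at most two common
neighbours. -/
def muB (M : List V5) : Bool := M.all fun p => M.all fun q => M.all fun s =>
  !(decide (q - p + s ∈ M)) ||
    (decide (p = s) || (decide (p - s ∈ M) || (decide (p = q) || decide (q = -s))))

theorem muB_spec (M : List V5) (h : muB M = true) :
    ∀ p ∈ M, ∀ q ∈ M, ∀ s ∈ M, q - p + s ∈ M → p = s ∨ p - s ∈ M ∨ p = q ∨ q = -s := by
  intro p hp q hq s hs h0
  have h2 := List.all_eq_true.mp h p hp
  have h3 := List.all_eq_true.mp h2 q hq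
  have h4 := List.all_eq_true.mp h3 s hs
  rw [Bool.or_eq_true, Bool.or_eq_true, Bool.or_eq_true, Bool.or_eq_true] at h4
  rcases h4 with h4 | h4 | h4 | h4 | h4
  · simp [h0] at h4
  · exact Or.inl (of_decide_eq_true h4)
  · exact Or.inr (Or.inl (of_decide_eq_true h4))
  · exact Or.inr (Or.inr (Or.inl (of_decide_eq_true h4)))
  · exact Or.inr (Or.inr (Or.inr (of_decide_eq_true h4)))

theorem muB_true : muB L = true := by decide +kernel

theorem L_mu (a p q : V5) (hp : p ∈ L) (hq : q ∈ L) (hpa : p - a ∈ L) (hqa : q - a ∈ L)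
    (ha0 : a ≠ 0) (ha : a ∉ L) : p = q ∨ a = p + q := by
  have h := muB_spec L muB_true p hp q hq (p - a) hpa (by
    have : q - p + (p - a) = q - a := by abel
    rw [this]; exact hqa)
  rcases h with h | h | h | h
  · exact absurd (by
      have h5 : a = p - (p - a) := by abel
      rw [← h] at h5
      simpa using h5) ha0
  · exact absurd (by simpa using h) ha
  · exact Or.inl h
  · right
    rw [h]; abel


/-- The graph of Berlekamp, van Lint and Seidel: `x` and `y` are adjacent when `y - x ∈ L`. -/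
def H : SimpleGraph V5 where
  Adj x y := y - x ∈ L
  symm := ⟨by
    intro x y h
    have := L_neg _ h
    simpa using this⟩
  loopless := ⟨by
    intro x h
    exact L_zero (by simpa using h)⟩

theorem H_adj (x y : V5) : H.Adj x y ↔ y - x ∈ L := Iff.rfl

theorem L_card : L.toFinset.card = 22 := by decide +kernel

theorem nbr_card (s : V5) : (∑ v : V5, if v - s ∈ L then (1 : ℤ) else 0) = 22 := by
  rw [Finset.sum_boole]
  have : (Finset.univ.filter fun v : V5 => v - s ∈ L) = L.toFinset.image (fun w => w + s) := by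
    ext v
    simp only [Finset.mem_filter, Finset.mem_univ, true_and, Finset.mem_image, List.mem_toFinset]
    constructor
    · intro h
      exact ⟨v - s, h, by abel⟩
    · rintro ⟨w, hw, rfl⟩
      simpa using hw
  rw [this, Finset.card_image_of_injective _ (add_left_injective s), L_card]
  norm_num

theorem common_card (s s' : V5) (hne : s ≠ s') (hna : s' - s ∉ L) :
    (∑ v : V5, (if v - s ∈ L then (1 : ℤ) else 0) * (if v - s' ∈ L then (1 : ℤ) else 0)) ≤ 2 := by
  have h1 : ∀ v : V5, (if v - s ∈ L then (1 : ℤ) else 0) * (if v - s' ∈ L then (1 : ℤ) else 0) =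
      if (v - s ∈ L ∧ v - s' ∈ L) then (1 : ℤ) else 0 := by
    intro v
    by_cases h : v - s ∈ L <;> by_cases h' : v - s' ∈ L <;> simp [h, h']
  rw [Finset.sum_congr rfl (fun v _ => h1 v), Finset.sum_boole]
  have hsub : ∀ v₀ : V5, v₀ - s ∈ L → v₀ - s' ∈ L →
      (Finset.univ.filter fun v : V5 => v - s ∈ L ∧ v - s' ∈ L) ⊆ {v₀, s' - v₀ + s} := by
    intro v₀ h2 h3 v hv
    simp only [Finset.mem_filter, Finset.mem_univ, true_and] at hv
    simp only [Finset.mem_insert, Finset.mem_singleton]
    have e1 : ∀ x : V5, x - s - (s' - s) = x - s' := fun x => by abel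
    have := L_mu (s' - s) (v₀ - s) (v - s) h2 hv.1 (by rw [e1]; exact h3) (by rw [e1]; exact hv.2)
      (fun h => hne (sub_eq_zero.mp h).symm) hna
    rcases this with h | h
    · left
      exact (sub_left_injective h).symm
    · right
      have e2 : v = (v₀ - s + (v - s)) - v₀ + s + s := by abel
      rw [e2, ← h]
      abel
  by_cases hex : ∃ v₀ : V5, v₀ - s ∈ L ∧ v₀ - s' ∈ L
  · obtain ⟨v₀, h2, h3⟩ := hex
    have := (Finset.card_le_card (hsub v₀ h2 h3)).trans Finset.card_le_two
    exact_mod_cast this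
  · have : (Finset.univ.filter fun v : V5 => v - s ∈ L ∧ v - s' ∈ L) = ∅ := by
      rw [Finset.filter_eq_empty_iff]
      intro v _ h
      exact hex ⟨v, h⟩
    rw [this]
    norm_num

/-- A set of pairwise nonadjacent vertices has at most 45 elements. -/
theorem indep_bound (S : Finset V5) (hS : ∀ x ∈ S, ∀ y ∈ S, y - x ∉ L) : S.card ≤ 45 := by
  classical
  let A : V5 → V5 → ℤ := fun v s => if v - s ∈ L then 1 else 0
  let d : V5 → ℤ := fun v => ∑ s ∈ S, A v s
  have hsum : ∑ v : V5, d v = 22 * (S.card : ℤ) := by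
    show ∑ v : V5, ∑ s ∈ S, A v s = _
    rw [Finset.sum_comm, Finset.sum_congr rfl (fun s _ => nbr_card s)]
    rw [Finset.sum_const, nsmul_eq_mul]
    ring
  have hsq : ∑ v : V5, d v ^ 2 ≤ 2 * (S.card : ℤ) ^ 2 + 20 * (S.card : ℤ) := by
    have e1 : ∀ v : V5, d v ^ 2 = ∑ s ∈ S, ∑ s' ∈ S, A v s * A v s' := by
      intro v
      rw [pow_two]
      exact Finset.sum_mul_sum _ _ _ _
    rw [Finset.sum_congr rfl (fun v _ => e1 v), Finset.sum_comm]
    have e2 : ∀ s ∈ S, ∑ v : V5, ∑ s' ∈ S, A v s * A v s' ≤ 2 * (S.card : ℤ) + 20 := by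
      intro s hs
      rw [Finset.sum_comm]
      have e3 : ∀ s' ∈ S, ∑ v : V5, A v s * A v s' ≤ 2 + (if s = s' then (20 : ℤ) else 0) := by
        intro s' hs'
        by_cases h : s = s'
        · subst h
          have : ∀ v : V5, A v s * A v s = A v s := by
            intro v
            show (if v - s ∈ L then (1 : ℤ) else 0) * (if v - s ∈ L then (1 : ℤ) else 0) = _
            by_cases h : v - s ∈ L <;> simp [A, h]
          rw [Finset.sum_congr rfl (fun v _ => this v), if_pos rfl]
          have := nbr_card s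
          show (∑ v : V5, if v - s ∈ L then (1 : ℤ) else 0) ≤ _
          rw [this]
          norm_num
        · rw [if_neg h, add_zero]
          exact common_card s s' h (hS s hs s' hs')
      refine (Finset.sum_le_sum e3).trans ?_
      rw [Finset.sum_add_distrib, Finset.sum_const, nsmul_eq_mul, Finset.sum_ite_eq, if_pos hs]
      linarith
    refine (Finset.sum_le_sum e2).trans ?_
    rw [Finset.sum_const, nsmul_eq_mul]
    nlinarith
  have hzero : ∀ v ∈ S, d v = 0 := by
    intro v hv
    apply Finset.sum_eq_zero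
    intro s hs
    exact if_neg (hS s hs v hv)
  have hcompl : ∑ v ∈ Sᶜ, d v = 22 * (S.card : ℤ) := by
    rw [← hsum, ← Finset.sum_add_sum_compl S d, Finset.sum_eq_zero hzero, zero_add]
  have hcompl2 : ∑ v ∈ Sᶜ, d v ^ 2 ≤ 2 * (S.card : ℤ) ^ 2 + 20 * (S.card : ℤ) := by
    refine le_trans ?_ hsq
    exact Finset.sum_le_sum_of_subset_of_nonneg (Finset.subset_univ _)
      (fun i _ _ => sq_nonneg _)
  have hcs := sq_sum_le_card_mul_sum_sq (s := Sᶜ) (f := d)
  rw [hcompl] at hcs
  have hc : (Sᶜ.card : ℤ) = 243 - S.card := by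
    have h1 : Fintype.card V5 = 243 := by decide +kernel
    have h2 : S.card ≤ Fintype.card V5 := Finset.card_le_univ S
    rw [Finset.card_compl, Nat.cast_sub h2, h1]
    norm_num
  rw [hc] at hcs
  by_contra hlt
  push Not at hlt
  have h46 : (46 : ℤ) ≤ S.card := by exact_mod_cast hlt
  have hle : (S.card : ℤ) ≤ 243 := by
    have h1 : Fintype.card V5 = 243 := by decide +kernel
    have h2 : S.card ≤ Fintype.card V5 := Finset.card_le_univ S
    rw [h1] at h2
    exact_mod_cast h2
  generalize (S.card : ℤ) = n at hcs hcompl2 h46 hle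
  have h3 : (22 * n) ^ 2 ≤ (243 - n) * (2 * n ^ 2 + 20 * n) :=
    hcs.trans (mul_le_mul_of_nonneg_left hcompl2 (by linarith))
  have h4 : n * (2 * n ^ 2 + 18 * n - 4860) ≤ 0 := by nlinarith
  have h5 : 0 < 2 * n ^ 2 + 18 * n - 4860 := by nlinarith
  have h6 : 0 < n * (2 * n ^ 2 + 18 * n - 4860) := mul_pos (by linarith) h5
  linarith

theorem not_adj_compl {x y : V5} (h : x ≠ y) (h' : ¬ Hᶜ.Adj x y) : y - x ∈ L := by
  by_contra h2
  exact h' ⟨h, h2⟩

theorem has_three : Has 3 6 := by
  classical
  refine ⟨V5, inferInstance, inferInstance, Hᶜ, ⟨0⟩, ?_, ?_, ?_⟩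
  · intro S hS
    by_contra hlt
    push Not at hlt
    obtain ⟨x, y, hxy⟩ : ∃ x y : V5, S ⊆ {x, y} := by
      have h3 : S.card = 0 ∨ S.card = 1 ∨ S.card = 2 := by omega
      rcases h3 with h | h | h
      · refine ⟨0, 0, ?_⟩
        rw [Finset.card_eq_zero.mp h]
        exact Finset.empty_subset _
      · obtain ⟨a, ha⟩ := Finset.card_eq_one.mp h
        refine ⟨a, a, ?_⟩
        rw [ha]
        intro i hi
        exact Finset.mem_insert_of_mem hi
      · obtain ⟨a, b, _, hab⟩ := Finset.card_eq_two.mp h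
        exact ⟨a, b, by rw [hab]⟩
    obtain ⟨s, hs, hs'⟩ := L_common (y - x)
    have w1 : x + s - x ∈ L := by
      have : x + s - x = s := by abel
      rw [this]; exact hs
    have w2 : x + s - y ∈ L := by
      have : x + s - y = s - (y - x) := by abel
      rw [this]; exact hs'
    have hw : ∀ u ∈ S, x + s - u ∈ L := by
      intro u hu
      have := hxy hu
      simp only [Finset.mem_insert, Finset.mem_singleton] at this
      rcases this with rfl | rfl
      · exact w1
      · exact w2
    rcases hS (x + s) with h | ⟨u, hu, h⟩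
    · have := hw _ h
      rw [sub_self] at this
      exact L_zero this
    · exact h.2 (hw u hu)
  · refine ⟨{D | D.card = 3 ∧ ∀ w : V5, ∃ d ∈ D, ¬ H.Adj w d}, ?_, ?_⟩
    · refine ⟨{0, (1, 0, 0, 0, 0), (2, 0, 0, 0, 0)}, by decide +kernel, ?_⟩
      intro w
      by_cases hw : H.Adj w 0
      · have hw' : w ∈ L := by
          have := L_neg _ ((H_adj _ _).mp hw)
          simpa using this
        rcases L_line w hw' with h | h
        · refine ⟨(1, 0, 0, 0, 0), by simp, ?_⟩
          intro h2
          exact h (by simpa using L_neg _ ((H_adj _ _).mp h2))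
        · refine ⟨(2, 0, 0, 0, 0), by simp, ?_⟩
          intro h2
          exact h (by simpa using L_neg _ ((H_adj _ _).mp h2))
      · exact ⟨0, by simp, hw⟩
    · rintro D ⟨hcard, hdom⟩
      refine ⟨hcard, ?_, ?_⟩
      · intro v
        obtain ⟨d, hd, hvd⟩ := hdom v
        by_cases h : d = v
        · exact Or.inl (h ▸ hd)
        · exact Or.inr ⟨d, hd, h, fun h2 => hvd h2.symm⟩
      · intro v
        by_cases hv : v ∈ D
        · exact ⟨D, ⟨hcard, hdom⟩, Or.inl ⟨hv, rfl⟩⟩
        obtain ⟨x, y, z, hxy, hxz, hyz, rfl⟩ := Finset.card_eq_three.mp hcard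
        have hv0 := hv
        simp only [Finset.mem_insert, Finset.mem_singleton, not_or] at hv
        obtain ⟨hvx, hvy, hvz⟩ := hv
        have hk := key (V := V5) (fun s => s ∈ L) L_neg L_dbl
          (fun a p ha hp hpa => L_lam a ha p hp hpa)
          (fun a p q hp hq hpa hqa h0 h => L_mu a p q hp hq hpa hqa h0 h)
          (x - v) (y - v) (z - v)
          (sub_ne_zero.mpr (Ne.symm hvx)) (sub_ne_zero.mpr (Ne.symm hvy))
          (sub_ne_zero.mpr (Ne.symm hvz))
          (fun h => hxy (sub_left_injective h)) (fun h => hxz (sub_left_injective h))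
          (fun h => hyz (sub_left_injective h)) (by
            rintro w ⟨h1, h2, h3⟩
            obtain ⟨d, hd, hd'⟩ := hdom (w + v)
            have conv : ∀ c : V5, w - (c - v) ∈ L → H.Adj (w + v) c := by
              intro c hc
              have h4 := L_neg _ hc
              have h5 : -(w - (c - v)) = c - (w + v) := by abel
              rw [h5] at h4
              exact h4
            simp only [Finset.mem_insert, Finset.mem_singleton] at hd
            rcases hd with rfl | rfl | rfl
            · exact hd' (conv _ h1)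
            · exact hd' (conv _ h2)
            · exact hd' (conv _ h3))
        have fin_step : ∀ a b c : V5, a ∈ ({x, y, z} : Finset V5) →
            (({x, y, z} : Finset V5).erase a) = {b, c} → b ≠ c → v ≠ b → v ≠ c → v ≠ a →
            (¬ (a - v) ∈ L ∧ ∀ w, ¬ (w ∈ L ∧ w - (b - v) ∈ L ∧ w - (c - v) ∈ L)) →
            ∃ D' ∈ {D : Finset V5 | D.card = 3 ∧ ∀ w : V5, ∃ d ∈ D, ¬ H.Adj w d},
              Round Hᶜ {x, y, z} v D' := by
          intro a b c ha her hbc hvb hvc hva ⟨h1, h2⟩
          refine ⟨insert v (({x, y, z} : Finset V5).erase a), ⟨?_, ?_⟩, Or.inr ⟨hv0, a, ha, ?_, rfl⟩⟩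
          · rw [her, Finset.card_eq_three]
            exact ⟨v, b, c, hvb, hvc, hbc, rfl⟩
          · intro w
            by_contra hcon
            rw [her] at hcon
            push Not at hcon
            have g1 := hcon v (by simp)
            have g2 := hcon b (by simp)
            have g3 := hcon c (by simp)
            apply h2 (w - v)
            refine ⟨?_, ?_, ?_⟩
            · have := L_neg _ ((H_adj _ _).mp g1)
              simpa using this
            · have := L_neg _ ((H_adj _ _).mp g2)
              have h5 : w - v - (b - v) = -(b - w) := by abel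
              rw [h5]; exact this
            · have := L_neg _ ((H_adj _ _).mp g3)
              have h5 : w - v - (c - v) = -(c - w) := by abel
              rw [h5]; exact this
          · exact ⟨Ne.symm hva, fun h => h1 (by simpa using L_neg _ ((H_adj _ _).mp h))⟩
        rcases hk with hk | hk | hk
        · refine fin_step x y z (by simp) ?_ hyz hvy hvz hvx hk
          ext i
          simp only [Finset.mem_erase, Finset.mem_insert, Finset.mem_singleton]
          constructor
          · tauto
          · rintro (rfl | rfl)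
            · exact ⟨Ne.symm hxy, by simp⟩
            · exact ⟨Ne.symm hxz, by simp⟩
        · refine fin_step y x z (by simp) ?_ hxz hvx hvz hvy hk
          ext i
          simp only [Finset.mem_erase, Finset.mem_insert, Finset.mem_singleton]
          constructor
          · tauto
          · rintro (rfl | rfl)
            · exact ⟨hxy, by simp⟩
            · exact ⟨Ne.symm hyz, by simp⟩
        · refine fin_step z x y (by simp) ?_ hxy hvx hvy hvz hk
          ext i
          simp only [Finset.mem_erase, Finset.mem_insert, Finset.mem_singleton]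
          constructor
          · tauto
          · rintro (rfl | rfl)
            · exact ⟨hxz, by simp⟩
            · exact ⟨hyz, by simp⟩
  · intro c hc
    have h1 := Finset.card_le_mul_card_image (f := c) Finset.univ 45 (by
      intro a _
      apply indep_bound
      intro x hx y hy hxy
      simp only [Finset.mem_filter, Finset.mem_univ, true_and] at hx hy
      have hne : x ≠ y := by
        rintro rfl
        rw [sub_self] at hxy
        exact L_zero hxy
      exact (hc x y hne (hx.trans hy.symm)).2 hxy)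
    have h2 : (Finset.univ : Finset V5).card = 243 := by decide +kernel
    rw [h2] at h1
    omega

theorem has_all (q r : ℕ) : Has (3 * (q + 1) + r) (6 * (q + 1) + r) := by
  induction r with
  | zero =>
    induction q with
    | zero => exact has_three
    | succ q ih =>
      have := has_add ih has_three
      have e1 : 3 * (q + 1) + 0 + 3 = 3 * (q + 1 + 1) + 0 := by ring
      have e2 : 6 * (q + 1) + 0 + 6 = 6 * (q + 1 + 1) + 0 := by ring
      rwa [e1, e2] at this
  | succ r ih =>
    have := has_add ih has_one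
    exact this

/-! ### Two guards are never enough for an example -/

theorem round_mem {V : Type} [DecidableEq V] {G : SimpleGraph V} {D D' : Finset V} {r : V}
    (h : Round G D r D') : r ∈ D' := by
  rcases h with ⟨h1, rfl⟩ | ⟨_, u, _, _, rfl⟩
  · exact h1
  · exact Finset.mem_insert_self _ _

theorem strategy_card {V : Type} [DecidableEq V] {G : SimpleGraph V} {k : ℕ}
    {σ : List V → Finset V} (h0 : (σ []).card = k)
    (h2 : ∀ h r, Round G (σ h) r (σ (r :: h))) : ∀ h, (σ h).card = k := by
  intro h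
  induction h with
  | nil => exact h0
  | cons r h ih => exact (round_card (h2 h r)).trans ih

theorem pair_of_card {V : Type} [DecidableEq V] {D : Finset V} (hD : D.card = 2) {a b : V}
    (ha : a ∈ D) (hb : b ∈ D) (hab : a ≠ b) : D = {a, b} := by
  symm
  apply Finset.eq_of_subset_of_card_le
  · intro x hx
    simp only [Finset.mem_insert, Finset.mem_singleton] at hx
    rcases hx with rfl | rfl <;> assumption
  · rw [hD, Finset.card_pair hab]

theorem no_common {V : Type} [DecidableEq V] {G : SimpleGraph V} {a b y : V}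
    (h : Dominating G ({a, b} : Finset V)) (h1 : Gᶜ.Adj a y) (h2 : Gᶜ.Adj b y) : False := by
  rcases h y with h | ⟨u, hu, huy⟩
  · simp only [Finset.mem_insert, Finset.mem_singleton] at h
    rcases h with rfl | rfl
    · exact h1.1 rfl
    · exact h2.1 rfl
  · simp only [Finset.mem_insert, Finset.mem_singleton] at hu
    rcases hu with rfl | rfl
    · exact h1.2 huy
    · exact h2.2 huy

theorem odd_walk {V : Type} [DecidableEq V] {G : SimpleGraph V}
    {σ : List V → Finset V} (h0 : (σ []).card = 2) (h1 : ∀ h, Dominating G (σ h))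
    (h2 : ∀ h r, Round G (σ h) r (σ (r :: h))) (a : V) :
    ∀ (n : ℕ) (x : V) (p : Gᶜ.Walk x a), p.length = 2 * n + 1 →
      a ≠ x ∧ ∃ h, a ∈ σ h ∧ x ∈ σ h := by
  have hcard := strategy_card h0 h2
  intro n
  induction n with
  | zero =>
    intro x p hp
    have hadj : Gᶜ.Adj x a := SimpleGraph.Walk.adj_of_length_eq_one (by simpa using hp)
    refine ⟨Ne.symm hadj.1, [x, a], ?_, round_mem (h2 [a] x)⟩
    have ha : a ∈ σ [a] := round_mem (h2 [] a)
    rcases h2 [a] x with ⟨_, he⟩ | ⟨hx, u, hu, hux, he⟩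
    · rw [he]; exact ha
    · rw [he]
      apply Finset.mem_insert_of_mem
      rw [Finset.mem_erase]
      refine ⟨?_, ha⟩
      rintro rfl
      exact hadj.2 hux.symm
  | succ n ih =>
    intro x p hp
    cases p with
    | nil => simp at hp
    | @cons _ y _ hxy p =>
      cases p with
      | nil =>
        simp at hp
      | @cons _ z _ hyz p =>
        obtain ⟨haz, h, hha, hhz⟩ := ih z p (by
          simp only [SimpleGraph.Walk.length_cons] at hp
          omega)
        have hD := pair_of_card (hcard h) hha hhz haz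
        have hax : a ≠ x := by
          rintro rfl
          have := h1 h
          rw [hD] at this
          exact no_common this hxy hyz.symm
        refine ⟨hax, ?_⟩
        by_cases hxz : x = z
        · exact ⟨h, hha, hxz ▸ hhz⟩
        refine ⟨x :: h, ?_, round_mem (h2 h x)⟩
        rcases h2 h x with ⟨_, he⟩ | ⟨hx, u, hu, hux, he⟩
        · rw [he]; exact hha
        · rw [hD] at hu
          simp only [Finset.mem_insert, Finset.mem_singleton] at hu
          rcases hu with rfl | rfl
          · exfalso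
            have hz' : z ∈ σ (x :: h) := by
              rw [he]
              exact Finset.mem_insert_of_mem (Finset.mem_erase.mpr ⟨Ne.symm haz, hhz⟩)
            have hD' := pair_of_card (hcard (x :: h)) (round_mem (h2 h x)) hz' hxz
            have := h1 (x :: h)
            rw [hD'] at this
            exact no_common this hxy hyz.symm
          · rw [he]
            exact Finset.mem_insert_of_mem (Finset.mem_erase.mpr ⟨haz, hha⟩)

/-- If at most two guards suffice, then as many cliques as guards cover the graph. -/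
theorem cover_of_two {V : Type} [DecidableEq V] (G : SimpleGraph V) (k : ℕ) (hk : k ≤ 2)
    (h : Defends G k) :
    ∃ C : Fin k → Set V, (∀ i, G.IsClique (C i)) ∧ ∀ v, ∃ i, v ∈ C i := by
  obtain ⟨σ, h0, h1, h2⟩ := h
  have hcard := strategy_card h0 h2
  have h3 : k = 0 ∨ k = 1 ∨ k = 2 := by omega
  rcases h3 with rfl | rfl | rfl
  · refine ⟨fun _ => ∅, fun i => i.elim0, fun v => ?_⟩
    have he : σ [] = ∅ := Finset.card_eq_zero.mp h0
    rcases h1 [] v with h | ⟨u, hu, _⟩
    · rw [he] at h; exact absurd h (Finset.notMem_empty _)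
    · rw [he] at hu; exact absurd hu (Finset.notMem_empty _)
  · refine ⟨fun _ => Set.univ, fun _ x _ y _ hxy => ?_, fun v => ⟨0, Set.mem_univ v⟩⟩
    have hx : x ∈ σ [x] := round_mem (h2 [] x)
    obtain ⟨z, hz⟩ := Finset.card_eq_one.mp (hcard [x])
    have hxz : x = z := by rw [hz] at hx; simpa using hx
    subst hxz
    rcases h1 [x] y with h | ⟨u, hu, huy⟩
    · rw [hz] at h
      exact absurd (Finset.mem_singleton.mp h).symm hxy
    · rw [hz] at hu
      rw [Finset.mem_singleton.mp hu] at huy
      exact huy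
  · have hcol : Gᶜ.Colorable 2 := by
      rw [SimpleGraph.two_colorable_iff_forall_loop_even]
      intro a w
      by_contra hodd
      rw [Nat.not_even_iff_odd] at hodd
      obtain ⟨n, hn⟩ := hodd
      exact (odd_walk h0 h1 h2 a n a w hn).1 rfl
    obtain ⟨C⟩ := hcol
    refine ⟨fun i => {v | C v = i}, fun i x hx y hy hxy => ?_, fun v => ⟨C v, rfl⟩⟩
    by_contra hna
    have hadj : Gᶜ.Adj x y := ⟨hxy, hna⟩
    exact C.valid hadj (hx.trans hy.symm)

/-- The numbers `k` for which some graph has domination number and eternal domination number `k`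
and larger clique covering number are exactly the `k ≥ 3`; for each of them there are connected
examples of arbitrarily large order, with clique covering number at least `k + 3 ⌊k/3⌋`, and for
`k ≤ 2` no graph with eternal domination number `k` has larger clique covering number. -/
theorem result (k : ℕ) :
    (3 ≤ k → ∀ N : ℕ,
      ∃ (V : Type) (_ : Fintype V) (_ : DecidableEq V) (G : SimpleGraph V) (t : ℕ),
        G.Connected ∧ N ≤ Fintype.card V ∧ DomNumberEq G k ∧ EternalNumberEq G k ∧
        CoverNumberEq G t ∧ k + 3 * (k / 3) ≤ t) ∧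
    ((∃ (V : Type) (_ : Fintype V) (_ : DecidableEq V) (G : SimpleGraph V) (t : ℕ),
      EternalNumberEq G k ∧ CoverNumberEq G t ∧ k < t) → 3 ≤ k) := by
  constructor
  · intro hk N
    have h := has_all (k / 3 - 1) (k % 3)
    have e1 : 3 * (k / 3 - 1 + 1) + k % 3 = k := by omega
    have e2 : 6 * (k / 3 - 1 + 1) + k % 3 = k + 3 * (k / 3) := by omega
    rw [e1, e2] at h
    exact has_connected h N
  · rintro ⟨V, _, _, G, t, hk, ht, hkt⟩
    by_contra hlt
    push Not at hlt
    obtain ⟨C, hC, hcov⟩ := cover_of_two G k (by omega) hk.1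
    have := ht.2 ⟨C, hC, hcov⟩
    omega

end Pool.Agent.Results.MP_c705d2_co.AllValues
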